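import Pool.Agent.Y437.HW.Lin

/-! The quadruple product form of a free abelian group of rank `m`: its nullity. -/

set_option autoImplicit false

namespace Pool.Agent.Y437.HW

open Set
open Pool.Agent.Helper158.PD (F2 odd_alt)

/-- lower bound for the nullity of the form of `ℤ^m` -/
def kk (m : ℕ) : ℕ := if m = 3 then 3 else if m = 5 then 4 else m.choose 2 % 2

/-- two pairs are disjoint and both avoid `j` -/
def ok (e f : Pr 5) (j : Fin 5) : Prop :=
  e.1.1 ≠ f.1.1 ∧ e.1.1 ≠ f.1.2 ∧ e.1.2 ≠ f.1.1 ∧ e.1.2 ≠ f.1.2 ∧ j ≠ e.1.1 ∧ j ≠ e.1.2 ∧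
    j ≠ f.1.1 ∧ j ≠ f.1.2

instance (e f : Pr 5) (j : Fin 5) : Decidable (ok e f j) := by
  unfold ok
  infer_instance

/-- the vector `u ∧ e_j` -/
def rr (y : Fin 5 → F2) (j : Fin 5) (e : Pr 5) : F2 :=
  if e.1.1 = j then y e.1.2 else if e.1.2 = j then y e.1.1 else 0

theorem image5 : ∀ e f : Pr 5,
    ¬ (e.1.1 = f.1.1 ∨ e.1.1 = f.1.2 ∨ e.1.2 = f.1.1 ∨ e.1.2 = f.1.2) →
    ∃ j : Fin 5, Finset.univ.image ![e.1.1, e.1.2, f.1.1, f.1.2] = Finset.univ.erase j ∧
      ∀ l, ok e f l ↔ l = j := by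
  decide +kernel

theorem rr_null : ∀ (a b c d g : F2) (j : Fin 5) (f : Pr 5),
    ∑ e : Pr 5, rr ![a, b, c, d, g] j e * ∑ l, (if ok e f l then (![a, b, c, d, g] : Fin 5 → F2) l else 0)
      = 0 := by
  decide +kernel

theorem rr_null' (y : Fin 5 → F2) (j : Fin 5) (f : Pr 5) :
    ∑ e : Pr 5, rr y j e * ∑ l, (if ok e f l then y l else 0) = 0 := by
  have h : y = ![y 0, y 1, y 2, y 3, y 4] := by
    funext i
    fin_cases i <;> rfl
  have := rr_null (y 0) (y 1) (y 2) (y 3) (y 4) j f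
  rwa [← h] at this

/-- the pair with given distinct entries -/
def mk5 (a b : Fin 5) (h : a ≠ b) : Pr 5 :=
  if h' : a < b then ⟨(a, b), h'⟩ else ⟨(b, a), lt_of_le_of_ne (not_lt.1 h') h.symm⟩

theorem rr_mk (y : Fin 5 → F2) (j a b : Fin 5) (h : a ≠ b) (hj : j ≠ a) :
    rr y j (mk5 a b h) = if b = j then y a else 0 := by
  unfold rr mk5
  by_cases h' : a < b
  · rw [dif_pos h']
    simp only
    rw [if_neg hj.symm]
  · rw [dif_neg h']
    simp only
    by_cases hb : b = j
    · rw [if_pos hb, if_pos hb]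
    · rw [if_neg hb, if_neg hb, if_neg hj.symm]

theorem block (m : ℕ) (q : Fin m → Fin m → Fin m → Fin m → F2)
    (hq : ∀ (σ : Equiv.Perm (Fin 4)) (v : Fin 4 → Fin m),
      q (v (σ 0)) (v (σ 1)) (v (σ 2)) (v (σ 3)) = q (v 0) (v 1) (v 2) (v 3))
    (h0 : ∀ e : Pr m, q e.1.1 e.1.2 e.1.1 e.1.2 = 0)
    (hs : ∀ e f : Pr m, q e.1.1 e.1.2 f.1.1 f.1.2 = q f.1.1 f.1.2 e.1.1 e.1.2)
    (hz : ∀ e f : Pr m,
      (e.1.1 = f.1.1 ∨ e.1.1 = f.1.2 ∨ e.1.2 = f.1.1 ∨ e.1.2 = f.1.2) →
        q e.1.1 e.1.2 f.1.1 f.1.2 = 0) :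
    ∃ K : Submodule F2 (Pr m → F2),
      (∀ v ∈ K, ∀ f : Pr m, ∑ e : Pr m, v e * q e.1.1 e.1.2 f.1.1 f.1.2 = 0) ∧
      kk m ≤ Module.finrank F2 K := by
  classical
  by_cases h3 : m = 3
  · subst h3
    refine ⟨⊤, ?_, ?_⟩
    · intro v _ f
      refine Finset.sum_eq_zero fun e _ => ?_
      have hd : ∀ e f : Pr 3, (e.1.1 = f.1.1 ∨ e.1.1 = f.1.2 ∨ e.1.2 = f.1.1 ∨ e.1.2 = f.1.2) := by
        decide
      rw [hz e f (hd e f), mul_zero]
    · rw [finrank_top, Module.finrank_fintype_fun_eq_card, card_Pr]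
      decide
  by_cases h5 : m = 5
  · subst h5
    obtain ⟨w, hw⟩ := exists_w q hq
    obtain ⟨y, hy⟩ : ∃ y : Fin 5 → F2, ∀ j, y j = w (Finset.univ.erase j) := ⟨_, fun _ => rfl⟩
    have hA : ∀ e f : Pr 5, q e.1.1 e.1.2 f.1.1 f.1.2 = ∑ l, (if ok e f l then y l else 0) := by
      intro e f
      by_cases hm : e.1.1 = f.1.1 ∨ e.1.1 = f.1.2 ∨ e.1.2 = f.1.1 ∨ e.1.2 = f.1.2
      · rw [hz e f hm]
        symm
        refine Finset.sum_eq_zero fun l _ => ?_
        rw [if_neg]
        rintro ⟨g1, g2, g3, g4, -⟩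
        rcases hm with h | h | h | h
        · exact g1 h
        · exact g2 h
        · exact g3 h
        · exact g4 h
      · obtain ⟨j, hj, hok⟩ := image5 e f hm
        have hinj : Function.Injective ![e.1.1, e.1.2, f.1.1, f.1.2] := by
          have hcard : (Finset.univ.image ![e.1.1, e.1.2, f.1.1, f.1.2]).card =
              (Finset.univ : Finset (Fin 4)).card := by
            rw [hj, Finset.card_erase_of_mem (Finset.mem_univ _)]
            rfl
          intro a b hab
          exact Finset.injOn_of_card_image_eq hcard (Finset.mem_coe.2 (Finset.mem_univ _))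
            (Finset.mem_coe.2 (Finset.mem_univ _)) hab
        have := hw _ hinj
        rw [hj, ← hy] at this
        rw [Finset.sum_eq_single j]
        · rw [if_pos ((hok j).2 rfl)]
          exact this
        · intro l _ hl
          rw [if_neg (fun h => hl ((hok l).1 h))]
        · intro hn
          exact absurd (Finset.mem_univ _) hn
    by_cases hy0 : ∃ j, y j ≠ 0
    · obtain ⟨j, hj⟩ := hy0
      let L : (Fin 4 → F2) →ₗ[F2] (Pr 5 → F2) :=
        Fintype.linearCombination F2 (fun i : Fin 4 => rr y (j.succAbove i))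
      have hLa : ∀ c e, L c e = ∑ i, c i * rr y (j.succAbove i) e := by
        intro c e
        simp only [L, Fintype.linearCombination_apply, Finset.sum_apply, Pi.smul_apply, smul_eq_mul]
      have hL : Function.Injective L := by
        rw [← LinearMap.ker_eq_bot, LinearMap.ker_eq_bot']
        intro c hc
        funext i
        have e1 := congrFun hc (mk5 j (j.succAbove i) (Fin.succAbove_ne j i).symm)
        rw [hLa, Finset.sum_eq_single i] at e1
        · rw [rr_mk _ _ _ _ _ (Fin.succAbove_ne j i), if_pos rfl] at e1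
          exact (mul_eq_zero.1 e1).resolve_right hj
        · intro i' _ hi'
          rw [rr_mk _ _ _ _ _ (Fin.succAbove_ne j i'), if_neg, mul_zero]
          intro h
          exact hi' (Fin.succAbove_right_injective h).symm
        · intro hn
          exact absurd (Finset.mem_univ _) hn
      refine ⟨LinearMap.range L, ?_, ?_⟩
      · rintro _ ⟨c, rfl⟩ f
        simp only [hLa, hA, Finset.sum_mul]
        rw [Finset.sum_comm]
        refine Finset.sum_eq_zero fun i _ => ?_
        simp only [mul_assoc]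
        rw [← Finset.mul_sum, rr_null', mul_zero]
      · rw [LinearMap.finrank_range_of_inj hL, Module.finrank_fin_fun]
        decide
    · push Not at hy0
      refine ⟨⊤, ?_, ?_⟩
      · intro v _ f
        refine Finset.sum_eq_zero fun e _ => ?_
        rw [hA, Finset.sum_eq_zero (fun l _ => by rw [hy0 l, ite_self]), mul_zero]
      · rw [finrank_top, Module.finrank_fintype_fun_eq_card, card_Pr]
        decide
  by_cases hodd : Odd (m.choose 2)
  · rw [← card_Pr] at hodd
    obtain ⟨v, hv0, hv⟩ := odd_alt hodd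
      (Matrix.of fun e f : Pr m => q e.1.1 e.1.2 f.1.1 f.1.2) h0 hs
    refine ⟨Submodule.span F2 {v}, ?_, ?_⟩
    · intro u hu f
      obtain ⟨a, rfl⟩ := Submodule.mem_span_singleton.1 hu
      have e1 : ∑ e : Pr m, v e * q e.1.1 e.1.2 f.1.1 f.1.2 = 0 := congrFun hv f
      simp only [Pi.smul_apply, smul_eq_mul, mul_assoc, ← Finset.mul_sum, e1, mul_zero]
    · rw [finrank_span_singleton hv0, kk, if_neg h3, if_neg h5]
      have := Nat.mod_lt (m.choose 2) (show 0 < 2 by norm_num)
      omega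
  · refine ⟨⊥, ?_, ?_⟩
    · intro u hu f
      rw [(Submodule.mem_bot F2).1 hu]
      simp
    · rw [kk, if_neg h3, if_neg h5]
      rw [Nat.not_odd_iff_even, Nat.even_iff] at hodd
      rw [hodd]
      exact Nat.zero_le _

end Pool.Agent.Y437.HW
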