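import Pool.Agent.Y437.HW.Gen

/-! Closed 4-manifolds whose fundamental group has coordinates with prescribed vanishing cup
products: the Euler characteristic is bounded below by the rank of a quadruple product form. -/

set_option autoImplicit false

namespace Pool.Agent.Y437.HW

open Set Topology
open Pool.Agent.Helper158.PD
open Pool.Agent.Helper922.HB.Sc (Sing sface altd vert)

universe u v

/-- a group with coordinates -/
structure Crd (G : Type v) [Group G] (V E : Type) [DecidableEq V] where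
  x : V → G → ℤ
  hx : ∀ i g g', x i (g * g') = x i g + x i g'
  gen : V → G
  hgen : Subgroup.closure (range gen) = ⊤
  hxg : ∀ i j, x i (gen j) = if i = j then 1 else 0
  s : E → V
  t : E → V
  hinj : ∀ e e', s e = s e' → t e = t e' → e = e'
  hsw : ∀ e e', s e = t e' → t e ≠ s e'
  hcomm : ∀ e, gen (s e) * gen (t e) = gen (t e) * gen (s e)
  Z : V → V → Prop
  hZ : ∀ i j, Z i j → ∃ κ : G → F2, ∀ g g',
    κ (g * g') = κ g + κ g' + (x i g : F2) * (x j g' : F2)

namespace Crd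

variable {X : Type u} [TopologicalSpace X] {G : Type v} [Group G] {V E : Type} [DecidableEq V]
  (D : Crd G V E) {c : Sing X 1 → G} {x₀ : X}

/-- products of two coordinate classes -/
noncomputable def pr (c : Sing X 1 → G) (e : E) : Co X 2 :=
  cup (show 1 + 1 = 2 from rfl) (cl c (D.x (D.s e))) (cl c (D.x (D.t e)))

/-- quadruple products -/
noncomputable def q4 (c : Sing X 1 → G) (I : Co X 4 →ₗ[F2] F2) (a b d f : V) : F2 :=
  Q4 I (cl c (D.x a)) (cl c (D.x b)) (cl c (D.x d)) (cl c (D.x f))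

/-- the form -/
noncomputable def mat (c : Sing X 1 → G) (I : Co X 4 →ₗ[F2] F2) : Matrix E E F2 :=
  Matrix.of fun e f => D.q4 c I (D.s e) (D.t e) (D.s f) (D.t f)

theorem pr_Cy (h1 : ∀ τ : Sing X 2, c (sface 1 1 τ) = c (sface 1 2 τ) * c (sface 1 0 τ)) (e : E) :
    D.pr c e ∈ Cy X 2 :=
  cup_Cy _ (cl_cocycle h1 (D.hx _)) (cl_cocycle h1 (D.hx _))

theorem x_one (i : V) : D.x i 1 = 0 := by
  have h := D.hx i 1 1
  rw [mul_one] at h
  omega

/-- linear independence of the products -/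
theorem indep [Fintype E]
    (h1 : ∀ τ : Sing X 2, c (sface 1 1 τ) = c (sface 1 2 τ) * c (sface 1 0 τ))
    (h2 : ∀ g : G, ∃ γ : Path x₀ x₀, c (pathSx γ) = g)
    (h3 : ∀ γ γ' : Path x₀ x₀, c (pathSx γ) = c (pathSx γ') → γ.Homotopic γ')
    (y : E → F2) (h : ∑ e, y e • D.pr c e ∈ Bd X 2) : y = 0 := by
  classical
  let ξ : G → G → F2 := fun g g' => ∑ e, y e * ((D.x (D.s e) g : F2) * (D.x (D.t e) g' : F2))
  have hxi : (fun τ : Sing X 2 => ξ (c (sface 1 2 τ)) (c (sface 1 0 τ))) ∈ Bd X 2 := by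
    have e : (fun τ : Sing X 2 => ξ (c (sface 1 2 τ)) (c (sface 1 0 τ))) =
        ∑ e, y e • D.pr c e := by
      funext τ
      rw [Finset.sum_apply]
      refine Finset.sum_congr rfl fun p _ => ?_
      rw [Pi.smul_apply, pr, cup_one_one]
      rfl
    rw [e]
    exact h
  have hz1 : ∀ g, ξ g 1 = 0 := fun g =>
    Finset.sum_eq_zero fun p _ => by rw [D.x_one, Int.cast_zero, mul_zero, mul_zero]
  have hz2 : ∀ g, ξ 1 g = 0 := fun g =>
    Finset.sum_eq_zero fun p _ => by rw [D.x_one, Int.cast_zero, zero_mul, mul_zero]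
  funext e0
  have e := symm_of_exact h1 h2 h3 ξ hz1 hz2 hxi (D.hcomm e0)
  have e1 : ξ (D.gen (D.s e0)) (D.gen (D.t e0)) = y e0 := by
    show ∑ e, y e * ((D.x (D.s e) (D.gen (D.s e0)) : F2) * (D.x (D.t e) (D.gen (D.t e0)) : F2)) = _
    rw [Finset.sum_eq_single e0]
    · rw [D.hxg, D.hxg, if_pos rfl, if_pos rfl]
      simp
    · intro f _ hf
      rw [D.hxg, D.hxg]
      by_cases ha : D.s f = D.s e0
      · by_cases hb : D.t f = D.t e0
        · exact absurd (D.hinj _ _ ha hb) hf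
        · rw [if_neg hb, Int.cast_zero, mul_zero, mul_zero]
      · rw [if_neg ha, Int.cast_zero, zero_mul, mul_zero]
    · intro hn
      exact absurd (Finset.mem_univ _) hn
  have e2 : ξ (D.gen (D.t e0)) (D.gen (D.s e0)) = 0 := by
    show ∑ e, y e * ((D.x (D.s e) (D.gen (D.t e0)) : F2) * (D.x (D.t e) (D.gen (D.s e0)) : F2)) = _
    refine Finset.sum_eq_zero fun f _ => ?_
    rw [D.hxg, D.hxg]
    by_cases ha : D.s f = D.t e0
    · rw [if_neg (D.hsw _ _ ha), Int.cast_zero, mul_zero, mul_zero]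
    · rw [if_neg ha, Int.cast_zero, zero_mul, mul_zero]
  rw [e1, e2] at e
  exact e

section form

variable (h1 : ∀ τ : Sing X 2, c (sface 1 1 τ) = c (sface 1 2 τ) * c (sface 1 0 τ))
  {I : Co X 4 →ₗ[F2] F2} (hI : ∀ c : Co X 3, I (dl 3 c) = 0)

include h1 hI

theorem q4_swap12 (a b d f : V) : D.q4 c I a b d f = D.q4 c I b a d f :=
  Q4_swap12 hI (cl_comm h1 (D.hx _) (D.hx _)) (cl_cocycle h1 (D.hx _)) (cl_cocycle h1 (D.hx _))

theorem q4_swap23 (a b d f : V) : D.q4 c I a b d f = D.q4 c I a d b f :=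
  Q4_swap23 hI (cl_comm h1 (D.hx _) (D.hx _)) (cl_cocycle h1 (D.hx _)) (cl_cocycle h1 (D.hx _))

theorem q4_swap34 (a b d f : V) : D.q4 c I a b d f = D.q4 c I a b f d :=
  Q4_swap34 hI (cl_comm h1 (D.hx _) (D.hx _)) (cl_cocycle h1 (D.hx _)) (cl_cocycle h1 (D.hx _))

theorem q4_zero (a b d f : V) (h : b = d ∨ D.Z b d) : D.q4 c I a b d f = 0 := by
  rcases h with h | h
  · subst h
    exact Q4_23 hI (cl_sq h1 (D.hx _)) (cl_cocycle h1 (D.hx _)) (cl_cocycle h1 (D.hx _))
  · obtain ⟨κ, hκ⟩ := D.hZ _ _ h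
    exact Q4_23 hI (cl_zero h1 κ hκ) (cl_cocycle h1 (D.hx _)) (cl_cocycle h1 (D.hx _))

theorem mat_diag (e : E) : D.mat c I e e = 0 := by
  show D.q4 c I (D.s e) (D.t e) (D.s e) (D.t e) = 0
  rw [D.q4_swap12 h1 hI]
  exact D.q4_zero h1 hI _ _ _ _ (Or.inl rfl)

theorem mat_symm (e f : E) : D.mat c I e f = D.mat c I f e := by
  show D.q4 c I (D.s e) (D.t e) (D.s f) (D.t f) = D.q4 c I (D.s f) (D.t f) (D.s e) (D.t e)
  rw [D.q4_swap23 h1 hI, D.q4_swap12 h1 hI, D.q4_swap34 h1 hI, D.q4_swap23 h1 hI]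

/-- the form vanishes if some vertex of `e` and some vertex of `f` agree or have zero product -/
theorem mat_zero (e f : E) (h : ∃ a b, (a = D.s e ∨ a = D.t e) ∧ (b = D.s f ∨ b = D.t f) ∧
    (a = b ∨ D.Z a b)) : D.mat c I e f = 0 := by
  obtain ⟨a, b, ha, hb, hab⟩ := h
  show D.q4 c I (D.s e) (D.t e) (D.s f) (D.t f) = 0
  rcases ha with rfl | rfl <;> rcases hb with rfl | rfl
  · rw [D.q4_swap12 h1 hI]
    exact D.q4_zero h1 hI _ _ _ _ hab
  · rw [D.q4_swap12 h1 hI, D.q4_swap34 h1 hI]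
    exact D.q4_zero h1 hI _ _ _ _ hab
  · exact D.q4_zero h1 hI _ _ _ _ hab
  · rw [D.q4_swap34 h1 hI]
    exact D.q4_zero h1 hI _ _ _ _ hab

/-- quadruple products are symmetric -/
theorem q4_perm (σ : Equiv.Perm (Fin 4)) (v : Fin 4 → V) :
    D.q4 c I (v (σ 0)) (v (σ 1)) (v (σ 2)) (v (σ 3)) = D.q4 c I (v 0) (v 1) (v 2) (v 3) := by
  have key : σ ∈ Submonoid.closure (Set.range fun i : Fin 3 => Equiv.swap i.castSucc i.succ) := by
    rw [Equiv.Perm.mclosure_swap_castSucc_succ]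
    exact Submonoid.mem_top _
  revert v
  induction key using Submonoid.closure_induction with
  | mem τ hτ =>
    intro v
    obtain ⟨i, rfl⟩ := hτ
    fin_cases i
    · exact D.q4_swap12 h1 hI _ _ _ _
    · exact D.q4_swap23 h1 hI _ _ _ _
    · exact D.q4_swap34 h1 hI _ _ _ _
  | one => intro v; rfl
  | mul σ τ _ _ hσ hτ =>
    intro v
    rw [← hσ v]
    exact hτ (fun i => v (σ i))

end form

/-- the second Betti number -/
theorem betti_two [Fintype E]
    (h1 : ∀ τ : Sing X 2, c (sface 1 1 τ) = c (sface 1 2 τ) * c (sface 1 0 τ))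
    (h2 : ∀ g : G, ∃ γ : Path x₀ x₀, c (pathSx γ) = g)
    (h3 : ∀ γ γ' : Path x₀ x₀, c (pathSx γ) = c (pathSx γ') → γ.Homotopic γ')
    {I : Co X 4 →ₗ[F2] F2} (hI : ∀ c : Co X 3, I (dl 3 c) = 0)
    (hnd : ∀ a ∈ Cy X 2, (∀ b ∈ Cy X 2, I (cup (show 2 + 2 = 4 from rfl) a b) = 0) → a ∈ Bd X 2)
    [Module.Finite F2 (Hc X 2)] (K : Submodule F2 (E → F2))
    (hK : ∀ v ∈ K, ∀ f, ∑ e, v e * D.mat c I e f = 0) :
    Fintype.card E + Module.finrank F2 K ≤ Module.finrank F2 (Hc X 2) := by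
  classical
  obtain ⟨B, hB, hBv⟩ := exists_form hI hnd
  let rep : (E → F2) →ₗ[F2] Cy X 2 :=
    Fintype.linearCombination F2 (fun e => (⟨D.pr c e, D.pr_Cy h1 e⟩ : Cy X 2))
  have hrep : ∀ y : E → F2, (rep y : Co X 2) = ∑ e, y e • D.pr c e := by
    intro y
    simp only [rep, Fintype.linearCombination_apply, Submodule.coe_sum, Submodule.coe_smul]
  let T : (E → F2) →ₗ[F2] Hc X 2 := (Submodule.mkQ ((Bd X 2).submoduleOf (Cy X 2))).comp rep
  have hTm : ∀ z, T z = Submodule.Quotient.mk (rep z) := fun z => rfl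
  have hTi : Function.Injective T := by
    rw [← LinearMap.ker_eq_bot, LinearMap.ker_eq_bot']
    intro y hy
    rw [hTm, Submodule.Quotient.mk_eq_zero] at hy
    have h4 : (rep y : Co X 2) ∈ Bd X 2 := hy
    rw [hrep] at h4
    exact D.indep h1 h2 h3 y h4
  have hL : Module.finrank F2 (LinearMap.range T) = Fintype.card E := by
    rw [LinearMap.finrank_range_of_inj hTi, Module.finrank_fintype_fun_eq_card]
  have hR : Module.finrank F2 (K.map T) = Module.finrank F2 K :=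
    (Submodule.equivMapOfInjective T hTi K).finrank_eq.symm
  have hmain := dim_le B hB (LinearMap.range T) (K.map T) (by
    rintro _ ⟨v, hv, rfl⟩ _ ⟨y, rfl⟩
    rw [hTm, hTm, hBv, hrep, hrep]
    simp only [map_sum, LinearMap.sum_apply, map_smul, LinearMap.smul_apply, smul_eq_mul]
    refine Finset.sum_eq_zero fun f _ => ?_
    have e1 := hK v hv f
    rw [show (∑ e, v e * I ((cup (show 2 + 2 = 4 from rfl)) (D.pr c e) (D.pr c f))) = 0 from e1,
      mul_zero])
  rw [hL, hR] at hmain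
  exact hmain

end Crd

/-- the Euler characteristic of a closed 4-manifold in terms of its Betti numbers -/
theorem euler_ge (X : Type u) [TopologicalSpace X] [CompactSpace X] [T2Space X] [Nonempty X]
    {I : Co X 4 →ₗ[F2] F2} (hI : ∀ c : Co X 3, I (dl 3 c) = 0)
    (hnd : ∀ (p q : ℕ) (h : p + q = 3 + 1) (a : Co X p), a ∈ Cy X p →
        (∀ b ∈ Cy X q, I (cup h a b) = 0) → a ∈ Bd X p)
    (hvan : ∀ p, 4 < p → Cy X p = Bd X p) (hfin : ∀ p, Module.Finite F2 (Hc X p)) {k m : ℕ}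
    (b1 : Module.finrank F2 (Hc X 1) ≤ k) (b2 : m ≤ Module.finrank F2 (Hc X 2)) :
    2 - 2 * (k : ℤ) + m ≤ euler X := by
  have := hfin 0
  have b0 : 1 ≤ Module.finrank F2 (Hc X 0) := betti_zero
  have b3 : Module.finrank F2 (Hc X 1) = Module.finrank F2 (Hc X 3) :=
    betti_symm hI hnd hfin (show 1 + 3 = 4 from rfl)
  have b4 : Module.finrank F2 (Hc X 0) = Module.finrank F2 (Hc X 4) :=
    betti_symm hI hnd hfin (show 0 + 4 = 4 from rfl)
  have hv : ∀ p, 4 < p → Module.finrank F2 (Hc X p) = 0 := by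
    intro p hp
    have h := hvan p hp
    have hs : ∀ x : Hc X p, x = 0 := by
      intro x
      obtain ⟨a, rfl⟩ := Submodule.Quotient.mk_surjective _ x
      rw [Submodule.Quotient.mk_eq_zero]
      exact (h ▸ a.2 : (a : Co X p) ∈ Bd X p)
    have : Subsingleton (Hc X p) := ⟨fun x y => by rw [hs x, hs y]⟩
    exact Module.finrank_zero_of_subsingleton
  have hsum : euler X = ∑ p ∈ Finset.range 5, (-1 : ℤ) ^ p * (Module.finrank F2 (Hc X p) : ℤ) := by
    apply finsum_eq_sum_of_support_subset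
    intro p hp
    rw [Function.mem_support] at hp
    rw [Finset.coe_range, mem_Iio]
    by_contra hlt
    apply hp
    rw [hv p (by omega), Nat.cast_zero, mul_zero]
  rw [hsum]
  simp only [Finset.sum_range_succ, Finset.sum_range_zero]
  norm_num
  omega

/-- **Main estimate.** -/
theorem main (X : Type u) [TopologicalSpace X] [CompactSpace X] [T2Space X] [ConnectedSpace X]
    [ChartedSpace (EuclideanSpace ℝ (Fin 4)) X] (x₀ : X) {G : Type v} [Group G] {V E : Type}
    [DecidableEq V] [Fintype V] [Fintype E] (D : Crd G V E)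
    (e : FundamentalGroup X x₀ ≃* G) :
    ∃ q : V → V → V → V → F2,
      (∀ (σ : Equiv.Perm (Fin 4)) (v : Fin 4 → V),
        q (v (σ 0)) (v (σ 1)) (v (σ 2)) (v (σ 3)) = q (v 0) (v 1) (v 2) (v 3)) ∧
      (∀ e : E, q (D.s e) (D.t e) (D.s e) (D.t e) = 0) ∧
      (∀ e f : E, q (D.s e) (D.t e) (D.s f) (D.t f) = q (D.s f) (D.t f) (D.s e) (D.t e)) ∧
      (∀ e f : E, (∃ a b, (a = D.s e ∨ a = D.t e) ∧ (b = D.s f ∨ b = D.t f) ∧
        (a = b ∨ D.Z a b)) → q (D.s e) (D.t e) (D.s f) (D.t f) = 0) ∧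
      ∀ K : Submodule F2 (E → F2),
        (∀ v ∈ K, ∀ f, ∑ e, v e * q (D.s e) (D.t e) (D.s f) (D.t f) = 0) →
        2 - 2 * (Fintype.card V : ℤ) + Fintype.card E + Module.finrank F2 K ≤ euler X := by
  obtain ⟨I, hI, hnd, hvan, hfin⟩ := poincare X 3
  have : LocallyPathConnectedSpace X :=
    ChartedSpace.locallyPathConnectedSpace (EuclideanSpace ℝ (Fin 4)) X
  have : PathConnectedSpace X := pathConnectedSpace_iff_connectedSpace.2 inferInstance
  have : Nonempty X := ⟨x₀⟩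
  obtain ⟨c, h1, h2, h3⟩ := exists_label x₀ e
  have := hfin 2
  have b1 : Module.finrank F2 (Hc X 1) ≤ Fintype.card V := by
    refine betti_one_le h1 h2 h3 _ (fun i => D.gen ((Fintype.equivFin V).symm i)) ?_
    rw [← D.hgen]
    congr 1
    exact (Fintype.equivFin V).symm.surjective.range_comp D.gen
  refine ⟨D.q4 c I, D.q4_perm h1 hI, D.mat_diag h1 hI, D.mat_symm h1 hI, D.mat_zero h1 hI, ?_⟩
  intro K hK
  have b2 := D.betti_two h1 h2 h3 hI (fun a ha h => hnd 2 2 rfl a ha h) K hK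
  have := euler_ge X hI hnd hvan hfin b1 b2
  push_cast at this
  linarith

end Pool.Agent.Y437.HW
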