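import Pool.Agent.Y437.HW.Grp
import Pool.Agent.Y437.HW.Blk

/-! Assembly: lower bounds for the Euler characteristic of closed 4-manifolds whose fundamental
group is a right-angled Artin group or a free product of free abelian groups. -/

set_option autoImplicit false

namespace Pool.Agent.Y437.HW

open Set Topology
open Pool.Agent.Helper158.PD (F2 exists_kappa_H)

universe u v

section raag

variable {n : ℕ} (Γ : SimpleGraph (Fin n)) [DecidableRel Γ.Adj]

/-- the two vertices of an edge -/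
def verts {Γ : SimpleGraph (Fin n)} (e : Ed Γ) : Finset (Fin n) := {e.1.1, e.1.2}

/-- the edges `e`, `f` are opposite edges of a complete subgraph on four vertices -/
def Opp (e f : Ed Γ) : Prop := ∀ a ∈ verts e, ∀ b ∈ verts f, Γ.Adj a b

instance (e f : Ed Γ) : Decidable (Opp Γ e f) := by
  unfold Opp
  infer_instance

/-- the form -/
def frm (w : Finset (Fin n) → F2) : Matrix (Ed Γ) (Ed Γ) F2 :=
  Matrix.of fun e f => if Opp Γ e f then w (verts e ∪ verts f) else 0

/-- the graph of opposite edges -/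
def opp : SimpleGraph (Ed Γ) where
  Adj e f := Opp Γ e f
  symm := ⟨fun _ _ h a ha b hb => (h b hb a ha).symm⟩
  loopless := ⟨fun e h => (h e.1.1 (by simp [verts]) e.1.1 (by simp [verts])).ne rfl⟩

theorem raag_bound (X : Type u) [TopologicalSpace X] [CompactSpace X] [T2Space X]
    [ConnectedSpace X] [ChartedSpace (EuclideanSpace ℝ (Fin 4)) X] (x₀ : X)
    (e : FundamentalGroup X x₀ ≃* Raag Γ) :
    (∃ w : Finset (Fin n) → F2,
      2 - 2 * (n : ℤ) + 2 * Fintype.card (Ed Γ) - (frm Γ w).rank ≤ euler X) ∧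
    2 - 2 * (n : ℤ) + Fintype.card (Ed Γ) + (opp Γ).oddComponents.ncard ≤ euler X := by
  obtain ⟨q, hp, hd, hs, hz, hK⟩ := main X x₀ (raagCrd Γ) e
  have hopp : ∀ e f : Ed Γ, ¬ Opp Γ e f → q e.1.1 e.1.2 f.1.1 f.1.2 = 0 := by
    intro e f h
    unfold Opp at h
    push Not at h
    obtain ⟨a, ha, b, hb, hab⟩ := h
    refine hz e f ⟨a, b, ?_, ?_, ?_⟩
    · have ha' : a = e.1.1 ∨ a = e.1.2 := by simpa [verts] using ha
      exact ha'
    · have hb' : b = f.1.1 ∨ b = f.1.2 := by simpa [verts] using hb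
      exact hb'
    · by_cases h : a = b
      · exact Or.inl h
      · exact Or.inr ⟨h, hab⟩
  rw [Fintype.card_fin] at hK
  constructor
  · obtain ⟨w, hw⟩ := exists_w q hp
    refine ⟨w, ?_⟩
    have hA : ∀ e f : Ed Γ, q e.1.1 e.1.2 f.1.1 f.1.2 = frm Γ w e f := by
      intro e f
      by_cases h : Opp Γ e f
      · have hinj : Function.Injective ![e.1.1, e.1.2, f.1.1, f.1.2] := by
          have h12 : e.1.1 ≠ e.1.2 := e.2.1.ne
          have h34 : f.1.1 ≠ f.1.2 := f.2.1.ne
          have h13 : e.1.1 ≠ f.1.1 := (h _ (by simp [verts]) _ (by simp [verts])).ne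
          have h14 : e.1.1 ≠ f.1.2 := (h _ (by simp [verts]) _ (by simp [verts])).ne
          have h23 : e.1.2 ≠ f.1.1 := (h _ (by simp [verts]) _ (by simp [verts])).ne
          have h24 : e.1.2 ≠ f.1.2 := (h _ (by simp [verts]) _ (by simp [verts])).ne
          intro i j hij
          fin_cases i <;> fin_cases j <;> simp at hij ⊢
          · exact h12 hij
          · exact h13 hij
          · exact h14 hij
          · exact h12 hij.symm
          · exact h23 hij
          · exact h24 hij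
          · exact h13 hij.symm
          · exact h23 hij.symm
          · exact h34 hij
          · exact h14 hij.symm
          · exact h24 hij.symm
          · exact h34 hij.symm
        have e1 := hw _ hinj
        have e2 : (Finset.univ.image ![e.1.1, e.1.2, f.1.1, f.1.2]) = verts e ∪ verts f := by
          ext x
          simp only [Finset.mem_image, Finset.mem_univ, true_and, verts, Finset.mem_union,
            Finset.mem_insert, Finset.mem_singleton]
          constructor
          · rintro ⟨i, rfl⟩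
            fin_cases i
            · exact Or.inl (Or.inl rfl)
            · exact Or.inl (Or.inr rfl)
            · exact Or.inr (Or.inl rfl)
            · exact Or.inr (Or.inr rfl)
          · rintro ((rfl | rfl) | (rfl | rfl))
            · exact ⟨0, rfl⟩
            · exact ⟨1, rfl⟩
            · exact ⟨2, rfl⟩
            · exact ⟨3, rfl⟩
        rw [e2] at e1
        show _ = ite _ _ _
        rw [if_pos h]
        exact e1
      · show _ = ite _ _ _
        rw [if_neg h]
        exact hopp e f h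
    have h1 := hK (LinearMap.ker (frm Γ w).mulVecLin) (by
      intro v hv f
      have e1 : (frm Γ w).mulVec v f = 0 := congrFun (LinearMap.mem_ker.1 hv) f
      have e2 : ∑ e, frm Γ w f e * v e = 0 := e1
      rw [← e2]
      refine Finset.sum_congr rfl fun e _ => ?_
      rw [← hA f e, hs]
      exact mul_comm _ _)
    have h2 := LinearMap.finrank_range_add_finrank_ker (frm Γ w).mulVecLin
    rw [Module.finrank_fintype_fun_eq_card] at h2
    have h3 : (frm Γ w).rank = Module.finrank F2 (LinearMap.range (frm Γ w).mulVecLin) := rfl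
    rw [← h3] at h2
    have h4 : ((frm Γ w).rank : ℤ) + Module.finrank F2 (LinearMap.ker (frm Γ w).mulVecLin) =
        Fintype.card (Ed Γ) := by exact_mod_cast h2
    linarith
  · obtain ⟨K, hK1, hK2⟩ := odd_comp (opp Γ)
      (Matrix.of fun e f : Ed Γ => q e.1.1 e.1.2 f.1.1 f.1.2) hd hs hopp
    have h1 := hK K hK1
    have h2 : ((opp Γ).oddComponents.ncard : ℤ) ≤ Module.finrank F2 K := by exact_mod_cast hK2
    linarith

end raag

theorem free_bound (X : Type u) [TopologicalSpace X] [CompactSpace X] [T2Space X]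
    [ConnectedSpace X] [ChartedSpace (EuclideanSpace ℝ (Fin 4)) X] (x₀ : X)
    {ι : Type} [Fintype ι] [DecidableEq ι] (n : ι → ℕ) (e : FundamentalGroup X x₀ ≃* FP n) :
    2 + ∑ i, (-2 * (n i : ℤ) + (n i).choose 2 + kk (n i)) ≤ euler X := by
  obtain ⟨q, hp, hd, hs, hz, hK⟩ := main X x₀ (freeCrd n) e
  obtain ⟨K, hK1, hK2⟩ := blocks (fun i => Pr (n i))
    (fun e f : (Σ i, Pr (n i)) => q ⟨e.1, e.2.1.1⟩ ⟨e.1, e.2.1.2⟩ ⟨f.1, f.2.1.1⟩ ⟨f.1, f.2.1.2⟩)
    (fun i j e f hij => hz ⟨i, e⟩ ⟨j, f⟩ ⟨⟨i, e.1.1⟩, ⟨j, f.1.1⟩, Or.inl rfl, Or.inl rfl,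
      Or.inr hij⟩) (fun i => kk (n i))
    (fun i => block (n i) (fun a b c d => q ⟨i, a⟩ ⟨i, b⟩ ⟨i, c⟩ ⟨i, d⟩)
      (fun σ v => hp σ (fun k => ⟨i, v k⟩)) (fun e => hd ⟨i, e⟩) (fun e f => hs ⟨i, e⟩ ⟨i, f⟩)
      (fun e f h => by
        refine hz ⟨i, e⟩ ⟨i, f⟩ ?_
        rcases h with h | h | h | h
        · exact ⟨⟨i, e.1.1⟩, ⟨i, f.1.1⟩, Or.inl rfl, Or.inl rfl, Or.inl (by rw [h])⟩
        · exact ⟨⟨i, e.1.1⟩, ⟨i, f.1.2⟩, Or.inl rfl, Or.inr rfl, Or.inl (by rw [h])⟩
        · exact ⟨⟨i, e.1.2⟩, ⟨i, f.1.1⟩, Or.inr rfl, Or.inl rfl, Or.inl (by rw [h])⟩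
        · exact ⟨⟨i, e.1.2⟩, ⟨i, f.1.2⟩, Or.inr rfl, Or.inr rfl, Or.inl (by rw [h])⟩))
  have h1 := hK K hK1
  have h2 : ((∑ i, kk (n i) : ℕ) : ℤ) ≤ Module.finrank F2 K := by exact_mod_cast hK2
  have h3 : Fintype.card (Σ i, Fin (n i)) = ∑ i, n i := by
    rw [Fintype.card_sigma]
    simp only [Fintype.card_fin]
  have h4 : Fintype.card (Σ i, Pr (n i)) = ∑ i, (n i).choose 2 := by
    rw [Fintype.card_sigma]
    simp only [card_Pr]
  rw [h3, h4] at h1
  push_cast at h1 h2
  rw [Finset.sum_add_distrib, Finset.sum_add_distrib, ← Finset.mul_sum]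
  linarith

end Pool.Agent.Y437.HW
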