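import Pool.Agent.Helper158.PD.Top

/-! Generic facts on closed 4-manifolds (adapted from `Pool.Agent.Helper158.PD.Fin`): the
intersection form, symmetry of the Betti numbers, the Euler characteristic. -/

set_option autoImplicit false
set_option linter.unusedVariables false

namespace Pool.Agent.Y437.HW

open Set Topology
open Pool.Agent.Helper158.PD
open Pool.Agent.Helper922.HB.Sc (Sing sface altd vert)

universe u v

variable {X : Type u} [TopologicalSpace X]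

/-- the intersection form on cohomology of degree two -/
theorem exists_form {I : Co X 4 →ₗ[F2] F2} (hI : ∀ c : Co X 3, I (dl 3 c) = 0)
    (hnd : ∀ a ∈ Cy X 2, (∀ b ∈ Cy X 2, I (cup (show 2 + 2 = 4 from rfl) a b) = 0) → a ∈ Bd X 2) :
    ∃ B : Hc X 2 →ₗ[F2] Hc X 2 →ₗ[F2] F2, Function.Injective B ∧
      ∀ a b : Cy X 2, B (Submodule.Quotient.mk a) (Submodule.Quotient.mk b) =
        I (cup (show 2 + 2 = 4 from rfl) a.1 b.1) := by
  obtain ⟨Φ, hΦ⟩ : ∃ Φ : Cy X 2 →ₗ[F2] Cy X 2 →ₗ[F2] F2, ∀ a b, Φ a b =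
      I (cup (show 2 + 2 = 4 from rfl) a.1 b.1) :=
    ⟨(LinearMap.compr₂ (cup (X := X) (show 2 + 2 = 4 from rfl)) I).compl₁₂
      (Cy X 2).subtype (Cy X 2).subtype, fun a b => rfl⟩
  have h1 : (Bd X 2).submoduleOf (Cy X 2) ≤ LinearMap.ker Φ.flip := by
    intro b hb
    rw [LinearMap.mem_ker]
    ext a
    rw [LinearMap.flip_apply, hΦ]
    exact Q4_aux_zero hI (cup_Bd_right _ a.2 hb)
  obtain ⟨Ψ, hΨ⟩ : ∃ Ψ : Hc X 2 →ₗ[F2] Cy X 2 →ₗ[F2] F2, ∀ a b,
      Ψ (Submodule.Quotient.mk b) a = Φ a b :=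
    ⟨((Bd X 2).submoduleOf (Cy X 2)).liftQ Φ.flip h1, fun a b => rfl⟩
  have h2 : (Bd X 2).submoduleOf (Cy X 2) ≤ LinearMap.ker Ψ.flip := by
    intro a ha
    rw [LinearMap.mem_ker]
    refine LinearMap.ext fun z => ?_
    obtain ⟨b, rfl⟩ := Submodule.Quotient.mk_surjective _ z
    rw [LinearMap.flip_apply, hΨ, hΦ]
    exact Q4_aux_zero hI (cup_Bd_left _ ha b.2)
  obtain ⟨B, hB⟩ : ∃ B : Hc X 2 →ₗ[F2] Hc X 2 →ₗ[F2] F2, ∀ a z,
      B (Submodule.Quotient.mk a) z = Ψ z a :=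
    ⟨((Bd X 2).submoduleOf (Cy X 2)).liftQ Ψ.flip h2, fun a z => rfl⟩
  refine ⟨B, ?_, fun a b => by rw [hB, hΨ, hΦ]⟩
  rw [injective_iff_map_eq_zero]
  intro z hz
  obtain ⟨a, rfl⟩ := Submodule.Quotient.mk_surjective _ z
  rw [Submodule.Quotient.mk_eq_zero]
  refine hnd a.1 a.2 fun b hb => ?_
  have h3 : B (Submodule.Quotient.mk a) (Submodule.Quotient.mk ⟨b, hb⟩) = 0 := by
    rw [hz, LinearMap.zero_apply]
  rw [hB, hΨ, hΦ] at h3
  exact h3

theorem betti_symm_aux {n : ℕ} {I : Co X (n + 1) →ₗ[F2] F2} (hI : ∀ c : Co X n, I (dl n c) = 0)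
    (hnd : ∀ (p q : ℕ) (h : p + q = n + 1) (a : Co X p), a ∈ Cy X p →
        (∀ b ∈ Cy X q, I (cup h a b) = 0) → a ∈ Bd X p)
    (hfin : ∀ p, Module.Finite F2 (Hc X p)) {p q : ℕ} (h : p + q = n + 1) :
    Module.finrank F2 (Hc X p) ≤ Module.finrank F2 (Hc X q) := by
  haveI := hfin p
  haveI := hfin q
  set B : Cy X p →ₗ[F2] Cy X q →ₗ[F2] F2 := ((cup h).compr₂ I).domRestrict₁₂ (Cy X p) (Cy X q) with hB
  have hBa : ∀ a b, B a b = I (cup h a.1 b.1) := fun a b => rfl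
  set Ψ : Hc X q →ₗ[F2] Cy X p →ₗ[F2] F2 := Submodule.liftQ ((Bd X q).submoduleOf (Cy X q)) B.flip (by
    intro b hb
    rw [LinearMap.mem_ker]
    ext a
    rw [LinearMap.flip_apply, hBa, LinearMap.zero_apply]
    have h1 : cup h a.1 b.1 ∈ Bd X (n + 1) := cup_Bd_right h a.2 hb
    obtain ⟨c, hc⟩ := h1
    rw [← hc]
    exact hI c) with hΨ
  set Φ : Cy X p →ₗ[F2] Hc X q →ₗ[F2] F2 := Ψ.flip with hΦ
  have hker : LinearMap.ker Φ ≤ (Bd X p).submoduleOf (Cy X p) := by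
    intro a ha
    rw [LinearMap.mem_ker] at ha
    apply hnd p q h a.1 a.2
    intro b hb
    have h1 := LinearMap.congr_fun ha (Submodule.Quotient.mk ⟨b, hb⟩)
    exact h1
  have e1 : Module.finrank F2 (Hc X p) ≤ Module.finrank F2 (Cy X p ⧸ LinearMap.ker Φ) := by
    haveI : Module.Finite F2 (Cy X p ⧸ LinearMap.ker Φ) :=
      Module.Finite.equiv (Φ.quotKerEquivRange).symm
    exact LinearMap.finrank_le_finrank_of_surjective (f := Submodule.factor hker) (Submodule.factor_surjective hker)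
  have e2 : Module.finrank F2 (Cy X p ⧸ LinearMap.ker Φ) = Module.finrank F2 (LinearMap.range Φ) :=
    LinearEquiv.finrank_eq Φ.quotKerEquivRange
  have e3 : Module.finrank F2 (LinearMap.range Φ) ≤ Module.finrank F2 (Hc X q →ₗ[F2] F2) :=
    Submodule.finrank_le _
  have e4 : Module.finrank F2 (Hc X q →ₗ[F2] F2) = Module.finrank F2 (Hc X q) :=
    Subspace.dual_finrank_eq
  omega

/-- the Betti numbers are symmetric -/
theorem betti_symm {n : ℕ} {I : Co X (n + 1) →ₗ[F2] F2} (hI : ∀ c : Co X n, I (dl n c) = 0)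
    (hnd : ∀ (p q : ℕ) (h : p + q = n + 1) (a : Co X p), a ∈ Cy X p →
        (∀ b ∈ Cy X q, I (cup h a b) = 0) → a ∈ Bd X p)
    (hfin : ∀ p, Module.Finite F2 (Hc X p)) {p q : ℕ} (h : p + q = n + 1) :
    Module.finrank F2 (Hc X p) = Module.finrank F2 (Hc X q) :=
  le_antisymm (betti_symm_aux hI hnd hfin h)
    (betti_symm_aux hI hnd hfin (show q + p = n + 1 by rw [add_comm]; exact h))

theorem betti_zero [Nonempty X] [Module.Finite F2 (Hc X 0)] : 1 ≤ Module.finrank F2 (Hc X 0) := by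
  have hone : (fun _ => 1 : Co X 0) ∈ Cy X 0 := by
    show dl 0 (fun _ => 1) = 0
    funext σ
    rw [dl_apply]
    simp only [Finset.sum_const, Finset.card_univ, Fintype.card_fin, Pi.zero_apply]
    decide
  have hne : (Submodule.Quotient.mk ⟨_, hone⟩ : Hc X 0) ≠ 0 := by
    intro h0
    rw [Submodule.Quotient.mk_eq_zero] at h0
    have h1 : (fun _ => 1 : Co X 0) ∈ (⊥ : Submodule F2 (Co X 0)) := h0
    rw [Submodule.mem_bot] at h1
    have h2 := congrFun h1 (ContinuousMap.const _ (Classical.arbitrary X))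
    exact one_ne_zero h2
  haveI : Nontrivial (Hc X 0) := ⟨⟨_, _, hne⟩⟩
  exact Module.finrank_pos

/-- the Euler characteristic, computed with cohomology mod 2 -/
noncomputable def euler (X : Type u) [TopologicalSpace X] : ℤ :=
  ∑ᶠ p : ℕ, (-1 : ℤ) ^ p * (Module.finrank F2 (Hc X p) : ℤ)

end Pool.Agent.Y437.HW
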