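import Pool.Agent.Y437.HW.Core

/-! Coordinates on right-angled Artin groups and on free products of free abelian groups. -/

set_option autoImplicit false

namespace Pool.Agent.Y437.HW

open Set
open Pool.Agent.Helper158.PD (F2 exists_kappa_H exists_kappa_mul exists_kappa_mul_a
  exists_kappa_mul_b exists_kappa_mul_c exists_kappa_one)

open scoped commutatorElement

universe u v

theorem add_ext {G : Type v} [Group G] {ι : Type} (gen : ι → G)
    (hgen : Subgroup.closure (range gen) = ⊤) (a b : G → F2)
    (ha : ∀ g g', a (g * g') = a g + a g') (hb : ∀ g g', b (g * g') = b g + b g')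
    (h : ∀ k, a (gen k) = b (gen k)) (g : G) : a g = b g := by
  have one : ∀ f : G → F2, (∀ g g', f (g * g') = f g + f g') → f 1 = 0 := by
    intro f hf
    have e := hf 1 1
    rw [mul_one] at e
    exact left_eq_add.1 e
  have inv : ∀ f : G → F2, (∀ g g', f (g * g') = f g + f g') → ∀ g, f g⁻¹ = - f g := by
    intro f hf g
    have e := hf g g⁻¹
    rw [mul_inv_cancel, one f hf] at e
    exact (neg_eq_of_add_eq_zero_right e.symm).symm
  let H : Subgroup G :=
    { carrier := {g | a g = b g}
      one_mem' := (one a ha).trans (one b hb).symm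
      mul_mem' := by
        intro x y hx hy
        show a (x * y) = b (x * y)
        rw [ha, hb, hx, hy]
      inv_mem' := by
        intro x hx
        show a x⁻¹ = b x⁻¹
        rw [inv a ha, inv b hb, hx] }
  have hle : Subgroup.closure (range gen) ≤ H := by
    rw [Subgroup.closure_le]
    rintro _ ⟨k, rfl⟩
    exact h k
  rw [hgen] at hle
  exact hle (Subgroup.mem_top g)

theorem kappa_of {G : Type v} [Group G] {ι : Type} (gen : ι → G)
    (hgen : Subgroup.closure (range gen) = ⊤) (x y : G → ℤ)
    (hx : ∀ g g', x (g * g') = x g + x g') (hy : ∀ g g', y (g * g') = y g + y g')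
    (Φ : G →* exists_kappa_H) (h1 : ∀ k, (Φ (gen k)).a = (x (gen k) : F2))
    (h2 : ∀ k, (Φ (gen k)).b = (y (gen k) : F2)) :
    ∃ κ : G → F2, ∀ g g', κ (g * g') = κ g + κ g' + (x g : F2) * (y g' : F2) := by
  refine ⟨fun g => (Φ g).c, fun g g' => ?_⟩
  have ea : ∀ g, (Φ g).a = (x g : F2) :=
    add_ext gen hgen _ _ (fun g g' => by rw [map_mul, exists_kappa_mul_a])
      (fun g g' => by rw [hx, Int.cast_add]) h1
  have eb : ∀ g, (Φ g).b = (y g : F2) :=
    add_ext gen hgen _ _ (fun g g' => by rw [map_mul, exists_kappa_mul_b])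
      (fun g g' => by rw [hy, Int.cast_add]) h2
  show (Φ (g * g')).c = _
  rw [map_mul, exists_kappa_mul_c, ea, eb]

section raag

variable {V : Type} (Γ : SimpleGraph V)

/-- the right-angled Artin group of a graph -/
abbrev Raag : Type :=
  PresentedGroup {r : FreeGroup V | ∃ i j, Γ.Adj i j ∧ r = ⁅FreeGroup.of i, FreeGroup.of j⁆}

theorem raag_rel {H : Type v} [Group H] (f : V → H) (hf : ∀ i j, Γ.Adj i j → f i * f j = f j * f i) :
    ∀ r ∈ {r : FreeGroup V | ∃ i j, Γ.Adj i j ∧ r = ⁅FreeGroup.of i, FreeGroup.of j⁆},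
      FreeGroup.lift f r = 1 := by
  rintro _ ⟨i, j, h, rfl⟩
  rw [map_commutatorElement, FreeGroup.lift_apply_of, FreeGroup.lift_apply_of,
    commutatorElement_eq_one_iff_mul_comm]
  exact hf i j h

/-- homomorphisms out of a right-angled Artin group -/
def raagLift {H : Type v} [Group H] (f : V → H) (hf : ∀ i j, Γ.Adj i j → f i * f j = f j * f i) :
    Raag Γ →* H := PresentedGroup.toGroup (raag_rel Γ f hf)

theorem raagLift_of {H : Type v} [Group H] (f : V → H)
    (hf : ∀ i j, Γ.Adj i j → f i * f j = f j * f i) (i : V) :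
    raagLift Γ f hf (PresentedGroup.of i) = f i := PresentedGroup.toGroup.of _

theorem raag_comm (i j : V) (h : Γ.Adj i j) :
    (PresentedGroup.of i : Raag Γ) * PresentedGroup.of j =
      PresentedGroup.of j * PresentedGroup.of i := by
  have e : (PresentedGroup.mk {r : FreeGroup V | ∃ i j, Γ.Adj i j ∧
      r = ⁅FreeGroup.of i, FreeGroup.of j⁆} ⁅FreeGroup.of i, FreeGroup.of j⁆ : Raag Γ) = 1 :=
    PresentedGroup.one_of_mem ⟨i, j, h, rfl⟩
  rw [map_commutatorElement, commutatorElement_eq_one_iff_mul_comm] at e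
  exact e

end raag

/-- edges of a graph on `Fin n`, as ordered pairs -/
abbrev Ed {n : ℕ} (Γ : SimpleGraph (Fin n)) : Type :=
  {p : Fin n × Fin n // p.1 < p.2 ∧ Γ.Adj p.1 p.2}

/-- coordinates on a right-angled Artin group -/
noncomputable def raagCrd {n : ℕ} (Γ : SimpleGraph (Fin n)) : Crd (Raag Γ) (Fin n) (Ed Γ) where
  x i g := Multiplicative.toAdd (raagLift Γ (fun j => Multiplicative.ofAdd
    (if i = j then (1 : ℤ) else 0)) (fun _ _ _ => mul_comm _ _) g)
  hx i g g' := by rw [map_mul, toAdd_mul]
  gen := PresentedGroup.of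
  hgen := PresentedGroup.closure_range_of _
  hxg i j := by rw [raagLift_of, toAdd_ofAdd]
  s e := e.1.1
  t e := e.1.2
  hinj e e' h1 h2 := Subtype.ext (Prod.ext h1 h2)
  hsw e e' h h' := by
    have h1 := e.2.1
    have h2 := e'.2.1
    rw [h, h'] at h1
    exact lt_asymm h1 h2
  hcomm e := raag_comm Γ _ _ e.2.2
  Z i j := i ≠ j ∧ ¬ Γ.Adj i j
  hZ i j h := by
    refine kappa_of (PresentedGroup.of : Fin n → Raag Γ) (PresentedGroup.closure_range_of _) _ _
      (fun g g' => by rw [map_mul, toAdd_mul]) (fun g g' => by rw [map_mul, toAdd_mul])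
      (raagLift Γ (fun k => (⟨if i = k then 1 else 0, if j = k then 1 else 0, 0⟩ :
        exists_kappa_H)) ?_) ?_ ?_
    · intro k l hkl
      rw [exists_kappa_mul, exists_kappa_mul]
      simp only
      have e1 : ((if i = k then 1 else 0 : F2) * (if j = l then 1 else 0 : F2)) = 0 := by
        by_cases h1 : i = k
        · by_cases h2 : j = l
          · subst h1 h2
            exact absurd hkl h.2
          · rw [if_neg h2, mul_zero]
        · rw [if_neg h1, zero_mul]
      have e2 : ((if i = l then 1 else 0 : F2) * (if j = k then 1 else 0 : F2)) = 0 := by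
        by_cases h1 : i = l
        · by_cases h2 : j = k
          · subst h1 h2
            exact absurd hkl.symm h.2
          · rw [if_neg h2, mul_zero]
        · rw [if_neg h1, zero_mul]
      rw [e1, e2, add_comm (if i = k then (1 : F2) else 0), add_comm (if j = k then (1 : F2) else 0)]
    · intro k
      rw [raagLift_of, raagLift_of, toAdd_ofAdd]
      simp only
      split_ifs <;> simp
    · intro k
      rw [raagLift_of, raagLift_of, toAdd_ofAdd]
      simp only
      split_ifs <;> simp

section free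

variable {ι : Type} [Fintype ι] [DecidableEq ι] (n : ι → ℕ)

/-- free product of free abelian groups of ranks `n i` -/
abbrev FP : Type := Monoid.CoprodI (fun i => Multiplicative (Fin (n i) → ℤ))

/-- linear function -/
def dot {m : ℕ} (c : Fin m → ℤ) : Multiplicative (Fin m → ℤ) →* Multiplicative ℤ where
  toFun f := Multiplicative.ofAdd (∑ b, c b * Multiplicative.toAdd f b)
  map_one' := by
    show Multiplicative.ofAdd (∑ b, c b * (0 : Fin m → ℤ) b) = Multiplicative.ofAdd 0
    simp
  map_mul' f g := by
    show Multiplicative.ofAdd (∑ b, c b * (Multiplicative.toAdd f b + Multiplicative.toAdd g b)) =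
      Multiplicative.ofAdd (_ + _)
    congr 1
    simp only [mul_add, Finset.sum_add_distrib]
    rfl

theorem dot_single {m : ℕ} (c : Fin m → ℤ) (b : Fin m) :
    Multiplicative.toAdd (dot c (Multiplicative.ofAdd (Pi.single b 1))) = c b := by
  show ∑ b', c b' * (Pi.single b 1 : Fin m → ℤ) b' = c b
  rw [Finset.sum_eq_single b]
  · rw [Pi.single_eq_same, mul_one]
  · intro b' _ h
    rw [Pi.single_eq_of_ne h, mul_zero]
  · intro hn
    exact absurd (Finset.mem_univ _) hn

/-- coordinate functions -/
def fx (v : Σ i, Fin (n i)) : FP n →* Multiplicative ℤ :=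
  Monoid.CoprodI.lift (fun j => dot (fun b => if v = ⟨j, b⟩ then 1 else 0))

/-- generators -/
def fgen (v : Σ i, Fin (n i)) : FP n :=
  Monoid.CoprodI.of (i := v.1) (Multiplicative.ofAdd (Pi.single v.2 1))

theorem fx_fgen (v w : Σ i, Fin (n i)) :
    Multiplicative.toAdd (fx n v (fgen n w)) = if v = w then 1 else 0 := by
  rw [fx, fgen, Monoid.CoprodI.lift_of, dot_single]

theorem fgen_closure : Subgroup.closure (range (fgen n)) = ⊤ := by
  rw [eq_top_iff]
  intro g _
  induction g using Monoid.CoprodI.induction_on with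
  | one => exact Subgroup.one_mem _
  | mul x y hx hy => exact Subgroup.mul_mem _ (hx (Subgroup.mem_top _)) (hy (Subgroup.mem_top _))
  | of i f =>
    have h1 : f = ∏ b : Fin (n i),
        (Multiplicative.ofAdd (Pi.single b (1 : ℤ) : Fin (n i) → ℤ)) ^
          (Multiplicative.toAdd f b) := by
      apply Multiplicative.toAdd.injective
      rw [toAdd_prod]
      funext k
      simp only [toAdd_zpow, toAdd_ofAdd, Finset.sum_apply, Pi.smul_apply, smul_eq_mul,
        Pi.single_apply]
      simp
    have h2 : f ∈ (Subgroup.closure (range (fgen n))).comap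
        (Monoid.CoprodI.of (M := fun i => Multiplicative (Fin (n i) → ℤ)) (i := i)) := by
      rw [h1]
      refine Subgroup.prod_mem _ fun b _ => Subgroup.zpow_mem _ ?_ _
      show Monoid.CoprodI.of _ ∈ Subgroup.closure (range (fgen n))
      exact Subgroup.subset_closure ⟨⟨i, b⟩, rfl⟩
    exact h2

/-- a homomorphism from a free abelian group to the Heisenberg group -/
def heis {m : ℕ} (c d : Fin m → ℤ) (h : (∀ b, c b = 0) ∨ ∀ b, d b = 0) :
    Multiplicative (Fin m → ℤ) →* exists_kappa_H where
  toFun f := ⟨((Multiplicative.toAdd (dot c f) : ℤ) : F2), ((Multiplicative.toAdd (dot d f) : ℤ) : F2), 0⟩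
  map_one' := by
    rw [(dot c).map_one, (dot d).map_one, exists_kappa_one, toAdd_one, Int.cast_zero]
  map_mul' f g := by
    rw [exists_kappa_mul]
    have e : ((Multiplicative.toAdd (dot c f) : ℤ) : F2) *
        ((Multiplicative.toAdd (dot d g) : ℤ) : F2) = 0 := by
      rcases h with h | h
      · have : Multiplicative.toAdd (dot c f) = 0 := by
          show ∑ b, c b * Multiplicative.toAdd f b = 0
          exact Finset.sum_eq_zero fun b _ => by rw [h b, zero_mul]
        rw [this, Int.cast_zero, zero_mul]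
      · have : Multiplicative.toAdd (dot d g) = 0 := by
          show ∑ b, d b * Multiplicative.toAdd g b = 0
          exact Finset.sum_eq_zero fun b _ => by rw [h b, zero_mul]
        rw [this, Int.cast_zero, mul_zero]
    simp only
    rw [e, (dot c).map_mul, (dot d).map_mul, toAdd_mul, toAdd_mul, Int.cast_add, Int.cast_add,
      add_zero, add_zero]

/-- coordinates on a free product of free abelian groups -/
noncomputable def freeCrd : Crd (FP n) (Σ i, Fin (n i)) (Σ i, {p : Fin (n i) × Fin (n i) // p.1 < p.2}) where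
  x v g := Multiplicative.toAdd (fx n v g)
  hx v g g' := by rw [map_mul, toAdd_mul]
  gen := fgen n
  hgen := fgen_closure n
  hxg v w := fx_fgen n v w
  s e := ⟨e.1, e.2.1.1⟩
  t e := ⟨e.1, e.2.1.2⟩
  hinj := by
    rintro ⟨i, ⟨⟨a, b⟩, h⟩⟩ ⟨j, ⟨⟨c, d⟩, h'⟩⟩ h1 h2
    simp only [Sigma.mk.injEq] at h1 h2
    obtain ⟨rfl, h1⟩ := h1
    obtain ⟨_, h2⟩ := h2
    have h1' := eq_of_heq h1
    have h2' := eq_of_heq h2
    subst h1' h2'
    rfl
  hsw := by
    rintro ⟨i, ⟨⟨a, b⟩, h⟩⟩ ⟨j, ⟨⟨c, d⟩, h'⟩⟩ h1 h2
    simp only [Sigma.mk.injEq] at h1 h2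
    obtain ⟨rfl, h1⟩ := h1
    obtain ⟨_, h2⟩ := h2
    have h1' := eq_of_heq h1
    have h2' := eq_of_heq h2
    subst h1' h2'
    exact lt_asymm h h'
  hcomm e := (map_mul (Monoid.CoprodI.of (i := e.1)) _ _).symm.trans
    ((congrArg _ (mul_comm _ _)).trans (map_mul (Monoid.CoprodI.of (i := e.1)) _ _))
  Z v w := v.1 ≠ w.1
  hZ v w h := by
    refine kappa_of (fgen n) (fgen_closure n) _ _
      (fun g g' => by rw [map_mul, toAdd_mul]) (fun g g' => by rw [map_mul, toAdd_mul])
      (Monoid.CoprodI.lift (fun j => heis (fun b => if v = ⟨j, b⟩ then 1 else 0)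
        (fun b => if w = ⟨j, b⟩ then 1 else 0) ?_)) ?_ ?_
    · by_cases hj : v.1 = j
      · right
        intro b
        rw [if_neg]
        rintro rfl
        exact h hj
      · left
        intro b
        rw [if_neg]
        rintro rfl
        exact hj rfl
    · intro k
      rw [fx_fgen, fgen, Monoid.CoprodI.lift_of]
      show ((Multiplicative.toAdd (dot _ _) : ℤ) : F2) = _
      rw [dot_single]
    · intro k
      rw [fx_fgen, fgen, Monoid.CoprodI.lift_of]
      show ((Multiplicative.toAdd (dot _ _) : ℤ) : F2) = _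
      rw [dot_single]

end free

end Pool.Agent.Y437.HW
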