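import Pool.Agent.Helper158.PD.Top

/-! Linear algebra over the field with two elements: null spaces of alternating matrices. -/

set_option autoImplicit false

namespace Pool.Agent.Y437.HW

open Set
open Pool.Agent.Helper158.PD (F2 odd_alt)

/-- a symmetric function of four distinct arguments is a function of a finset -/
theorem exists_w {V : Type} [DecidableEq V] (q : V → V → V → V → F2)
    (hq : ∀ (σ : Equiv.Perm (Fin 4)) (v : Fin 4 → V),
      q (v (σ 0)) (v (σ 1)) (v (σ 2)) (v (σ 3)) = q (v 0) (v 1) (v 2) (v 3)) :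
    ∃ w : Finset V → F2, ∀ v : Fin 4 → V, Function.Injective v →
      q (v 0) (v 1) (v 2) (v 3) = w (Finset.univ.image v) := by
  classical
  refine ⟨fun S => if h : ∃ v : Fin 4 → V, Finset.univ.image v = S then
    q (h.choose 0) (h.choose 1) (h.choose 2) (h.choose 3) else 0, fun v hv => ?_⟩
  have h : ∃ v' : Fin 4 → V, Finset.univ.image v' = Finset.univ.image v := ⟨v, rfl⟩
  show _ = dite _ _ _
  rw [dif_pos h]
  have he := h.choose_spec
  generalize h.choose = v' at he ⊢
  have hs : ∀ i, ∃ j, v' j = v i := fun i => by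
    have : v i ∈ Finset.univ.image v' := by
      rw [he]
      exact Finset.mem_image_of_mem _ (Finset.mem_univ _)
    simpa using this
  choose σ hσ using hs
  have hσi : Function.Injective σ := fun i j hij => hv (by rw [← hσ, ← hσ, hij])
  let τ : Equiv.Perm (Fin 4) := Equiv.ofBijective σ (Finite.injective_iff_bijective.1 hσi)
  have hτ : ∀ i, v' (τ i) = v i := hσ
  have := hq τ v'
  rw [hτ, hτ, hτ, hτ] at this
  exact this

/-- null vectors from the odd components of a graph supporting an alternating matrix -/
theorem odd_comp {E : Type} [Fintype E] (O : SimpleGraph E) (A : Matrix E E F2)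
    (h0 : ∀ e, A e e = 0) (hs : ∀ e f, A e f = A f e) (hO : ∀ e f, ¬ O.Adj e f → A e f = 0) :
    ∃ K : Submodule F2 (E → F2), (∀ v ∈ K, ∀ f, ∑ e, v e * A e f = 0) ∧
      O.oddComponents.ncard ≤ Module.finrank F2 K := by
  classical
  have key : ∀ C : O.oddComponents, ∃ u : E → F2, (∀ e, u e ≠ 0 → O.connectedComponentMk e = C.1) ∧
      (∃ e, u e ≠ 0) ∧ ∀ f, ∑ e, u e * A e f = 0 := by
    rintro ⟨C, hC⟩
    have hC' : Odd (Fintype.card C.supp) := by
      have : Odd C.supp.ncard := hC
      rwa [Set.ncard_eq_toFinset_card', Set.toFinset_card] at this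
    obtain ⟨v, hv0, hv⟩ := odd_alt hC' (Matrix.of fun e f : C.supp => A e.1 f.1)
      (fun e => h0 e.1) (fun e f => hs e.1 f.1)
    refine ⟨fun e => if h : e ∈ C.supp then v ⟨e, h⟩ else 0, ?_, ?_, ?_⟩
    · intro e he
      by_contra hne
      apply he
      exact dif_neg hne
    · obtain ⟨e, he⟩ := Function.ne_iff.1 hv0
      refine ⟨e.1, ?_⟩
      beta_reduce
      rw [dif_pos e.2]
      exact he
    · intro f
      by_cases hf : f ∈ C.supp
      · have e1 := congrFun hv ⟨f, hf⟩
        have e2 : ∑ e : C.supp, v e * A e.1 f = 0 := e1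
        rw [← Finset.sum_subset (Finset.subset_univ C.supp.toFinset) (fun e _ he => by
          rw [Set.mem_toFinset] at he
          show dite _ _ _ * _ = _
          rw [dif_neg he, zero_mul]),
          Finset.sum_subtype C.supp.toFinset (p := fun e => e ∈ C.supp) (fun e => Set.mem_toFinset),
          ← e2]
        refine Finset.sum_congr rfl fun e _ => ?_
        show dite _ _ _ * _ = _
        rw [dif_pos e.2]
      · refine Finset.sum_eq_zero fun e _ => ?_
        by_cases he : e ∈ C.supp
        · have hadj : ¬ O.Adj e f := by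
            intro had
            apply hf
            have e1 : O.connectedComponentMk e = C := he
            show O.connectedComponentMk f = C
            rw [← e1]
            exact (SimpleGraph.ConnectedComponent.connectedComponentMk_eq_of_adj had).symm
          rw [hO e f hadj, mul_zero]
        · show dite _ _ _ * _ = _
          rw [dif_neg he, zero_mul]
  choose u hu1 hu2 hu3 using key
  have hli : LinearIndependent F2 u := by
    rw [Fintype.linearIndependent_iff]
    intro g hg C
    obtain ⟨e, he⟩ := hu2 C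
    have e1 := congrFun hg e
    rw [Finset.sum_apply, Finset.sum_eq_single C] at e1
    · exact (mul_eq_zero.1 e1).resolve_right he
    · intro C' _ hne
      have : u C' e = 0 := by
        by_contra h
        exact hne (Subtype.ext ((hu1 C' e h).symm.trans (hu1 C e he)))
      rw [Pi.smul_apply, this, smul_zero]
    · intro h
      exact absurd (Finset.mem_univ _) h
  refine ⟨Submodule.span F2 (range u), ?_, ?_⟩
  · intro v hv
    induction hv using Submodule.span_induction with
    | mem x hx =>
      obtain ⟨C, rfl⟩ := hx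
      exact hu3 C
    | zero => intro f; simp
    | add x y _ _ hx hy =>
      intro f
      simp only [Pi.add_apply, add_mul, Finset.sum_add_distrib, hx f, hy f, add_zero]
    | smul a x _ hx =>
      intro f
      simp only [Pi.smul_apply, smul_eq_mul, mul_assoc, ← Finset.mul_sum, hx f, mul_zero]
  · rw [finrank_span_eq_card hli, ← Nat.card_eq_fintype_card]
    exact le_of_eq (_root_.Nat.card_coe_set_eq _).symm

/-- null vectors of a block diagonal matrix -/
theorem blocks {ι : Type} [Fintype ι] (F : ι → Type) [∀ i, Fintype (F i)] [DecidableEq ι]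
    (A : (Σ i, F i) → (Σ i, F i) → F2) (hA : ∀ i j e f, i ≠ j → A ⟨i, e⟩ ⟨j, f⟩ = 0) (k : ι → ℕ)
    (h : ∀ i, ∃ K : Submodule F2 (F i → F2), (∀ v ∈ K, ∀ f, ∑ e, v e * A ⟨i, e⟩ ⟨i, f⟩ = 0) ∧
      k i ≤ Module.finrank F2 K) :
    ∃ K : Submodule F2 ((Σ i, F i) → F2), (∀ v ∈ K, ∀ f, ∑ e, v e * A e f = 0) ∧
      ∑ i, k i ≤ Module.finrank F2 K := by
  classical
  choose K hK hk using h
  let L : (∀ i, K i) →ₗ[F2] ((Σ i, F i) → F2) :=
    { toFun := fun v p => (v p.1 : F p.1 → F2) p.2
      map_add' := fun v w => rfl
      map_smul' := fun a v => rfl }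
  have hL : Function.Injective L := by
    intro v w hvw
    funext i
    apply Subtype.ext
    funext e
    exact congrFun hvw ⟨i, e⟩
  refine ⟨LinearMap.range L, ?_, ?_⟩
  · rintro _ ⟨v, rfl⟩ ⟨j, f⟩
    rw [Fintype.sum_sigma, Finset.sum_eq_single j]
    · exact hK j _ (v j).2 f
    · intro i _ hij
      exact Finset.sum_eq_zero fun e _ => by rw [hA i j e f hij, mul_zero]
    · intro hn
      exact absurd (Finset.mem_univ _) hn
  · rw [LinearMap.finrank_range_of_inj hL, Module.finrank_pi_fintype]
    exact Finset.sum_le_sum fun i _ => hk i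

/-- pairs `i < j` -/
abbrev Pr (m : ℕ) : Type := {p : Fin m × Fin m // p.1 < p.2}

theorem card_Pr (m : ℕ) : Fintype.card (Pr m) = m.choose 2 := by
  classical
  have h : Fintype.card (Pr m) = (Finset.powersetCard 2 (Finset.univ : Finset (Fin m))).card := by
    rw [← Fintype.card_coe]
    refine Fintype.card_of_bijective (f := fun p : Pr m =>
      (⟨{p.1.1, p.1.2}, by
        rw [Finset.mem_powersetCard]
        exact ⟨Finset.subset_univ _, Finset.card_pair p.2.ne⟩⟩ :
        {S // S ∈ Finset.powersetCard 2 (Finset.univ : Finset (Fin m))})) ⟨?_, ?_⟩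
    · rintro ⟨⟨a, b⟩, hab⟩ ⟨⟨c, d⟩, hcd⟩ h
      have h' : ({a, b} : Finset (Fin m)) = {c, d} := congrArg Subtype.val h
      simp only at hab hcd
      have ha : a ∈ ({c, d} : Finset (Fin m)) := by rw [← h']; simp
      have hb : b ∈ ({c, d} : Finset (Fin m)) := by rw [← h']; simp
      simp only [Finset.mem_insert, Finset.mem_singleton] at ha hb
      rcases ha with rfl | rfl <;> rcases hb with rfl | rfl
      · exact absurd hab (lt_irrefl _)
      · rfl
      · exact absurd (hab.trans hcd) (lt_irrefl _)
      · exact absurd hab (lt_irrefl _)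
    · rintro ⟨S, hS⟩
      rw [Finset.mem_powersetCard] at hS
      obtain ⟨a, b, hab, rfl⟩ := Finset.card_eq_two.1 hS.2
      rcases lt_or_gt_of_ne hab with h | h
      · exact ⟨⟨(a, b), h⟩, rfl⟩
      · refine ⟨⟨(b, a), h⟩, Subtype.ext ?_⟩
        exact Finset.pair_comm b a
  rw [h, Finset.card_powersetCard, Finset.card_univ, Fintype.card_fin]

end Pool.Agent.Y437.HW
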